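import Pool.Agent.H13.TM.PA
import Pool.Agent.H23.DM.TargetsG
import Pool.Agent.H31.SX.TargetsS

/-!
# Board dmh_modules, row PA: Poisson summation and the separation of the variables (with
coefficients)
-/

set_option autoImplicit false

open NumberField NumberField.InfinitePlace NumberField.Units
  NumberField.Units.dirichletUnitTheorem MeasureTheory Set Filter Complex
open scoped nonZeroDivisors ENNReal

namespace Pool.Agent.H49.DM.PA

open Pool.Agent.H25.HK Pool.Agent.H23.LB Pool.Agent.H23.LC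
open Pool.Agent.H28.RC (Rep ft T_RX)
open Pool.Agent.H29.DW (dg Rl lf wv Pos Wg cpar Ci om zs rv Wt)
open Pool.Agent.H31.SW (EE itg FF HD DB DS dif Pf GG G2 DD PP pF dK pz ps Tf WG Rl_mul Rl_div
  Rl_ofReal W_WS)
open Pool.Agent.H27.TM
open Pool.Agent.H13.TM (wt_anti wt_one mc_eq norm_mc_ge Rl_zeta int_prod TT Rl_mc norm_TT
  norm_ca norm_kp measurable_kp measurable_El volume_S4_lt measurableSet_S4 continuous_G3 G3_zero
  sum_int)

section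

variable {K : Type} [Field K] [NumberField K]

/-- the terms of the dual sum -/
noncomputable def T2 (a : K → ℂ) (δ : K) (β : InfinitePlace K → ℂ) (α : InfinitePlace K → ℝ)
    (Q : InfinitePlace K → ℂ → ℂ → ℂ) (c : InfinitePlace K → ℂ) (ξ : K)
    (s : InfinitePlace K → ℂ) : ℂ :=
  a ξ * ∏ v, (kp (rv v) (s v) (β v) *
    El (rv v) (α v) (c v) (Q v (s v)) (mc α (δ * ξ) v))

theorem norm_T2 (a : K → ℂ) (δ : K) (β : InfinitePlace K → ℂ) (α : InfinitePlace K → ℝ)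
    (Q : InfinitePlace K → ℂ → ℂ → ℂ) (c : InfinitePlace K → ℂ) (y : InfinitePlace K → ℝ)
    {ω : InfinitePlace K → ℂ} (hω : Pos ω) (N : ℕ) (B : ℝ) (hB0 : 0 ≤ B)
    (hα : ∀ v, 0 < α v) (hδ : ∀ v, α v ≤ ‖wv v δ y ω‖)
    (hB : ∀ v s m, Rl (rv v) m → ‖El (rv v) (α v) (c v) (Q v s) m‖ ≤
      B * (1 + ‖m‖ / max 1 (α v * ‖c v‖)) ^ (-(N : ℝ))) (ξ : K) (s : InfinitePlace K → ℂ)
    {A₀ : ℝ} (ha : ‖a ξ‖ ≤ A₀) :
    ‖T2 a δ β α Q c ξ s‖ ≤ A₀ * (B ^ (Fintype.card (InfinitePlace K)) *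
      ∏ v : InfinitePlace K,
      (1 + ‖wv v ξ (-y) (fun v => (starRingEnd ℂ) (ω v))‖ / max 1 (α v * ‖c v‖)) ^
        (-(N : ℝ))) := by
  have h1 := norm_TT (0 : K) δ β α Q c y hω N B hB0 hα hδ hB ξ s
  unfold TT at h1
  rw [norm_mul, norm_ca, one_mul] at h1
  unfold T2
  rw [norm_mul]
  exact mul_le_mul ha h1 (norm_nonneg _) ((norm_nonneg _).trans ha)

theorem meas_T2 (a : K → ℂ) (δ : K) (β : InfinitePlace K → ℂ) (α : InfinitePlace K → ℝ)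
    (Q : InfinitePlace K → ℂ → ℂ → ℂ) (c : InfinitePlace K → ℂ)
    (hQ : ∀ v, Continuous (fun z : ℂ × ℂ => Q v z.1 z.2)) (ξ : K) :
    Measurable (T2 a δ β α Q c ξ) := by
  unfold T2
  refine Measurable.const_mul ?_ _
  refine Finset.measurable_prod _ fun v _ => ?_
  exact ((measurable_kp (rv v) (β v)).comp (measurable_pi_apply v)).mul
    ((measurable_El (rv v) (α v) (c v) (mc α (δ * ξ) v) (hQ v)).comp (measurable_pi_apply v))

/-- the sum over the midpoints with a given half difference -/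
theorem per_delta (hPO : Pool.Agent.H31.SX.X_PO) (hLS : M_LS) (hWS : W_WS) {n : ℕ} (hn : 0 < n)
    (hfin : Module.finrank ℚ K = n) {q Ψ : Bool → ℂ → ℂ} (hq : Pf q) (hΨ : Pf Ψ) {N : ℕ}
    (hN : n + 5 ≤ N) {j : Ideal (𝓞 K)} {M : FI K} (hj : j ≠ ⊥) (hM : M ≠ 0)
    (hjM : (j : FI K) * M ≠ 0) {X : Finset K} (hX : Rep K j M X) {cc : K → ℂ}
    (hcc : ∀ x ∈ M, ∀ t ∈ (j : FI K) * M, cc (x + t) = cc x)
    {S A₀ : ℝ} {a : K → ℂ} (ha : ∀ ξ ∈ du K ((j : FI K) * M), ‖a ξ‖ ≤ A₀)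
    (hft : ∀ ξ ∈ du K ((j : FI K) * M), ft K X cc ξ = (S : ℂ) * a ξ)
    (y : InfinitePlace K → ℝ)
    {ω : InfinitePlace K → ℂ} (hω : Pos ω) (δ : K) {G α : InfinitePlace K → ℝ}
    (hGα : ∀ v, 1 ≤ G v ∧ 0 < α v ∧ α v ≤ 1 / 10000 ∧ G v * α v ≤ 1 / 10000)
    {F F₁ Q : InfinitePlace K → ℂ → ℂ → ℂ} {C₁ : ℝ}
    (hSep : ∀ v, Sep (rv v) (α v) (G v) (q (rv v)) (Ψ (rv v)) (F v) (F₁ v) (Q v))
    (hAm : ∀ v s, Am N C₁ (rv v) (Q v s)) {c : InfinitePlace K → ℂ}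
    (hc : ∀ v, Rl (rv v) (c v)) {B : ℝ} (hB0 : 0 ≤ B)
    (hB : ∀ v s m, Rl (rv v) m → ‖El (rv v) (α v) (c v) (Q v s) m‖ ≤
      B * (1 + ‖m‖ / max 1 (α v * ‖c v‖)) ^ (-(N : ℝ)))
    (hδ : ∀ v, α v ≤ ‖wv v δ y ω‖ ∧ ‖wv v δ y ω‖ < 2 * α v) :
    (∀ s, Summable fun ξ : {ξ : K // ξ ∈ du K ((j : FI K) * M)} =>
      T2 a δ (fun v => wv v δ y ω / α v) α Q c ξ s) ∧
    IntegrableOn (fun s => ∑' ξ : {ξ : K // ξ ∈ du K ((j : FI K) * M)},
      T2 a δ (fun v => wv v δ y ω / α v) α Q c ξ s) (Set.pi univ fun _ => S4) ∧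
    ∑' x : {x : K // x ∈ M}, cc x *
      pF (fun v => G3 (q (rv v)) (Ψ (rv v)) (G v) (c v) (wv v δ y ω)) y ω x =
      ((DD M y / (Nf K j * Real.sqrt (dK K)) * S : ℝ) : ℂ) *
        ∫ s in Set.pi univ fun _ => S4,
        ∑' ξ : {ξ : K // ξ ∈ du K ((j : FI K) * M)},
          T2 a δ (fun v => wv v δ y ω / α v) α Q c ξ s := by
  have hM1 : ∀ v, (1 : ℝ) ≤ max 1 (α v * ‖c v‖) := fun v => le_max_left _ _
  have hM0 : ∀ v, (0 : ℝ) < max 1 (α v * ‖c v‖) := fun v => lt_of_lt_of_le one_pos (hM1 v)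
  have hdu : du K ((j : FI K) * M) ≠ 0 := by
    unfold du
    exact FractionalIdeal.dual_ne_zero ℤ ℚ hjM
  obtain ⟨CW, _, hWS'⟩ := hWS n hn
  have hsumW := (hWS' K hfin (du K ((j : FI K) * M)) (-y) (fun v => (starRingEnd ℂ) (ω v))
    (fun v => max 1 (α v * ‖c v‖)) N hdu hω.conj hM0 (by omega)).1
  have hbd : ∀ (ξ : {ξ : K // ξ ∈ du K ((j : FI K) * M)}) (s : InfinitePlace K → ℂ),
      ‖T2 a δ (fun v => wv v δ y ω / α v) α Q c ξ s‖ ≤
      A₀ * (B ^ (Fintype.card (InfinitePlace K)) *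
        ∏ v : InfinitePlace K, (1 + ‖wv v ξ.1 (-y) (fun v => (starRingEnd ℂ) (ω v))‖ /
          max 1 (α v * ‖c v‖)) ^ (-(N : ℝ))) := fun ξ s =>
    norm_T2 a δ _ α Q c y hω N B hB0 (fun v => (hGα v).2.1) (fun v => (hδ v).1) hB ξ s
      (ha ξ.1 ξ.2)
  have hsumB := (hsumW.mul_left (B ^ (Fintype.card (InfinitePlace K)))).mul_left A₀
  have hfinm : IsFiniteMeasure ((volume : Measure (InfinitePlace K → ℂ)).restrict
      (Set.pi univ fun _ => S4)) := ⟨by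
    rw [Measure.restrict_apply_univ, volume_pi_pi]
    exact ENNReal.prod_lt_top fun v _ => volume_S4_lt⟩
  have hcK : Countable K := (Module.finBasis ℚ K).equivFun.toEquiv.countable_iff.2 inferInstance
  have hSI := sum_int (μ := (volume : Measure (InfinitePlace K → ℂ)).restrict
      (Set.pi univ fun _ => S4)) (F := fun (ξ : {ξ : K // ξ ∈ du K ((j : FI K) * M)}) s =>
      T2 a δ (fun v => wv v δ y ω / α v) α Q c ξ s)
    (fun ξ => (meas_T2 a δ _ α Q c (fun v => (hSep v).cQ) ξ.1).aestronglyMeasurable) hbd hsumB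
  refine ⟨fun s => hsumB.of_norm_bounded fun ξ => hbd ξ s, hSI.1, ?_⟩
  have hFF : ∀ (v : InfinitePlace K) (ζ : ℂ), Rl (rv v) ζ →
      FF (rv v) (G3 (q (rv v)) (Ψ (rv v)) (G v) (c v) (wv v δ y ω)) ζ =
      ∫ s in S4, kp (rv v) s (wv v δ y ω / α v) *
        El (rv v) (α v) (c v) (Q v s) (wv v δ y ω * ζ / α v) := fun v ζ hζ =>
    hLS q Ψ hq hΨ N C₁ (rv v) (α v) (G v) (F v) (F₁ v) (Q v) (hGα v).2.1 (hGα v).2.2.1
      (hGα v).1 (hGα v).2.2.2 (hSep v) (hAm v) (c v) (wv v δ y ω) ζ (hc v)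
      (Pool.Agent.H29.DW.Rl_wv v δ y hω) hζ (hδ v).1 (hδ v).2
  have hPO' := hPO K j M X cc
    (fun v => G3 (q (rv v)) (Ψ (rv v)) (G v) (c v) (wv v δ y ω)) hj hM hX hcc
    (fun v => continuous_G3 ((hq.1 (rv v) 0).continuous) (hq.2 (rv v))
      ((hΨ.1 (rv v) 0).continuous) _ _ _)
    ⟨2, fun v w hw => G3_zero (hq.2 (rv v)) _ _ _ w hw⟩ ?_ y ω hω
  · rw [hPO'.2]
    have hr : ((DD M y / (Nf K j * Real.sqrt (dK K)) * S : ℝ) : ℂ) =
        ((DD M y / (Nf K j * Real.sqrt (dK K)) : ℝ) : ℂ) * (S : ℂ) := by push_cast; ring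
    rw [hr, mul_assoc]
    congr 1
    rw [← hSI.2.tsum_eq, ← tsum_mul_left]
    refine tsum_congr fun ξ => ?_
    have h1 : ∀ v : InfinitePlace K,
        FF (rv v) (G3 (q (rv v)) (Ψ (rv v)) (G v) (c v) (wv v δ y ω))
          (2 * Real.pi * dg (rv v) * wv v ξ.1 (-y) (fun v => (starRingEnd ℂ) (ω v))) =
        ∫ s in S4, kp (rv v) s (wv v δ y ω / α v) *
          El (rv v) (α v) (c v) (Q v s) (mc α (δ * ξ.1) v) := by
      intro v
      rw [hFF v _ (Rl_zeta y hω ξ.1 v), mc_eq α y hω δ ξ.1 v]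
    simp_rw [h1]
    rw [← int_prod (K := K) (fun v s => kp (rv v) s (wv v δ y ω / α v) *
      El (rv v) (α v) (c v) (Q v s) (mc α (δ * ξ.1) v)), hft ξ.1 ξ.2, mul_assoc,
      ← integral_const_mul]
    rfl
  · refine ⟨∑ v : InfinitePlace K, B * (max 1 (α v * ‖c v‖)) ^ N * (volume S4).toReal, ?_⟩
    intro v ζ hζ
    rw [hFF v ζ hζ]
    have h1 : ∀ s ∈ S4, ‖kp (rv v) s (wv v δ y ω / α v) *
        El (rv v) (α v) (c v) (Q v s) (wv v δ y ω * ζ / α v)‖ ≤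
        B * (max 1 (α v * ‖c v‖)) ^ N * (1 + ‖ζ‖) ^ (-((n : ℝ) + 1)) := by
      intro s _
      have hα0 := (hGα v).2.1
      have hRm : Rl (rv v) (wv v δ y ω * ζ / (α v : ℂ)) :=
        Rl_div (Rl_mul (Pool.Agent.H29.DW.Rl_wv v δ y hω) hζ) (Rl_ofReal _ _)
      have hnm : ‖ζ‖ ≤ ‖wv v δ y ω * ζ / (α v : ℂ)‖ := by
        rw [norm_div, norm_mul, Complex.norm_real, Real.norm_eq_abs, abs_of_pos hα0,
          le_div_iff₀ hα0, mul_comm]
        exact mul_le_mul_of_nonneg_right (hδ v).1 (norm_nonneg _)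
      rw [norm_mul]
      calc ‖kp (rv v) s (wv v δ y ω / α v)‖ *
            ‖El (rv v) (α v) (c v) (Q v s) (wv v δ y ω * ζ / α v)‖
          ≤ 1 * (B * (1 + ‖wv v δ y ω * ζ / (α v : ℂ)‖ / max 1 (α v * ‖c v‖)) ^ (-(N : ℝ))) :=
            mul_le_mul (norm_kp _ _ _) (hB v s _ hRm) (norm_nonneg _) zero_le_one
        _ ≤ B * (1 + ‖ζ‖ / max 1 (α v * ‖c v‖)) ^ (-(N : ℝ)) := by
            rw [one_mul]
            exact mul_le_mul_of_nonneg_left (wt_anti (norm_nonneg _) hnm (hM0 v) N) hB0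
        _ ≤ B * ((max 1 (α v * ‖c v‖)) ^ N * (1 + ‖ζ‖) ^ (-((n : ℝ) + 1))) :=
            mul_le_mul_of_nonneg_left (wt_one (norm_nonneg _) (hM1 v) (by omega)) hB0
        _ = _ := by ring
    have h2 := norm_setIntegral_le_of_norm_le_const volume_S4_lt h1
    refine h2.trans ?_
    rw [hfin]
    have h3 : 0 ≤ (1 + ‖ζ‖) ^ (-((n : ℝ) + 1)) := Real.rpow_nonneg (by positivity) _
    have h4 : B * (max 1 (α v * ‖c v‖)) ^ N * (volume S4).toReal ≤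
        ∑ v : InfinitePlace K, B * (max 1 (α v * ‖c v‖)) ^ N * (volume S4).toReal :=
      Finset.single_le_sum (f := fun v : InfinitePlace K =>
        B * (max 1 (α v * ‖c v‖)) ^ N * (volume S4).toReal)
        (fun v _ => mul_nonneg (mul_nonneg hB0 (pow_nonneg (hM0 v).le _)) ENNReal.toReal_nonneg)
        (Finset.mem_univ v)
    have h5 := mul_le_mul_of_nonneg_right h4 h3
    refine le_trans (le_of_eq ?_) h5
    rw [Measure.real]
    ring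

open scoped Classical in
/-- the sum over the products -/
theorem regroup (P Nn : FI K) (D : Finset K) (φ : K → K → ℂ) (E : K → ℂ)
    (β : K → InfinitePlace K → ℂ)
    (α : InfinitePlace K → ℝ) (Q : InfinitePlace K → ℂ → ℂ → ℂ) (c : InfinitePlace K → ℂ)
    (s : InfinitePlace K → ℂ) (hD0 : ∀ δ ∈ D, δ ≠ 0)
    (hDN : ∀ δ ∈ D, ∀ ξ ∈ P, δ * ξ ∈ Nn)
    (hs : ∀ δ ∈ D, Summable fun ξ : {ξ : K // ξ ∈ P} =>
      T2 (fun ξ => φ δ ξ * E (δ * ξ)) δ (β δ) α Q c ξ s) :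
    ∑' ν : {ν : K // ν ∈ Nn}, (∑ δ ∈ D, if (ν : K) / δ ∈ P then
        φ δ ((ν : K) / δ) * ∏ v, kp (rv v) (s v) (β δ v) else 0) *
        (E ν * Ep α (fun v => Q v (s v)) c ν) =
      ∑ δ ∈ D, ∑' ξ : {ξ : K // ξ ∈ P},
        T2 (fun ξ => φ δ ξ * E (δ * ξ)) δ (β δ) α Q c ξ s := by
  have h : ∀ δ ∈ D, HasSum (fun ν : {ν : K // ν ∈ Nn} =>
      (if (ν : K) / δ ∈ P then
        φ δ ((ν : K) / δ) * ∏ v, kp (rv v) (s v) (β δ v) else 0) *
        (E ν * Ep α (fun v => Q v (s v)) c ν))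
      (∑' ξ : {ξ : K // ξ ∈ P}, T2 (fun ξ => φ δ ξ * E (δ * ξ)) δ (β δ) α Q c ξ s) := by
    intro δ hδ
    have hδ0 := hD0 δ hδ
    let i : {ξ : K // ξ ∈ P} → {ν : K // ν ∈ Nn} := fun ξ =>
      ⟨δ * ξ.1, hDN δ hδ ξ.1 ξ.2⟩
    have hi : Function.Injective i := by
      intro a b hab
      have h1 : δ * a.1 = δ * b.1 := congrArg Subtype.val hab
      exact Subtype.ext (mul_left_cancel₀ hδ0 h1)
    refine (hi.hasSum_iff ?_).1 ?_
    · intro ν hν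
      have h1 : ¬ ((ν : K) / δ ∈ P) := by
        intro h2
        refine hν ⟨⟨(ν : K) / δ, h2⟩, ?_⟩
        apply Subtype.ext
        exact mul_div_cancel₀ (ν : K) hδ0
      rw [if_neg h1, zero_mul]
    · have h1 : ((fun ν : {ν : K // ν ∈ Nn} =>
          (if (ν : K) / δ ∈ P then
            φ δ ((ν : K) / δ) * ∏ v, kp (rv v) (s v) (β δ v) else 0) *
            (E ν * Ep α (fun v => Q v (s v)) c ν)) ∘ i) =
          fun ξ : {ξ : K // ξ ∈ P} =>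
            T2 (fun ξ => φ δ ξ * E (δ * ξ)) δ (β δ) α Q c ξ s := by
        funext ξ
        have h2 : (δ * ξ.1) / δ = ξ.1 := mul_div_cancel_left₀ ξ.1 hδ0
        simp only [Function.comp_apply, i]
        rw [h2, if_pos ξ.2]
        unfold T2 Ep
        rw [Finset.prod_mul_distrib]
        ring
      rw [h1]
      exact (hs δ hδ).hasSum
  have h2 := hasSum_sum h
  rw [← h2.tsum_eq]
  refine tsum_congr fun ν => ?_
  rw [Finset.sum_mul]

/-- `δ` is in `M` -/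
theorem mem_of_two {l e : Ideal (𝓞 K)} {M : FI K} {δ : K} (hl : l ≤ Ideal.span {(2 : 𝓞 K)})
    (h : 2 * δ ∈ ((l * e : Ideal (𝓞 K)) : FI K) * M) : δ ∈ M := by
  have h1 : ((l * e : Ideal (𝓞 K)) : FI K) ≤ ((Ideal.span {(2 : 𝓞 K)} : Ideal (𝓞 K)) : FI K) :=
    FractionalIdeal.coeIdeal_le_coeIdeal K |>.2 (le_trans (Ideal.mul_le_inf.trans inf_le_left) hl)
  have h2 : 2 * δ ∈ ((Ideal.span {(2 : 𝓞 K)} : Ideal (𝓞 K)) : FI K) * M :=
    (mul_le_mul' h1 le_rfl) h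
  rw [FractionalIdeal.coeIdeal_span_singleton, FractionalIdeal.mem_singleton_mul] at h2
  obtain ⟨z, hz, hz2⟩ := h2
  have h3 : (algebraMap (𝓞 K) K) 2 = 2 := map_ofNat _ 2
  rw [h3] at hz2
  have h4 : δ = z := mul_left_cancel₀ (two_ne_zero) hz2
  rw [h4]
  exact hz

/-- the sum over a coset -/
theorem coset_sum {l r : Ideal (𝓞 K)} {M : FI K} {ρ δ : K} (hρ : ρ ∈ M) (hδ : δ ∈ M)
    (q : K → ℂ) (G : InfinitePlace K → ℂ → ℂ) (y : InfinitePlace K → ℝ)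
    (ω : InfinitePlace K → ℂ) :
    ∑' x : {x : K // x ∈ ((l * r : Ideal (𝓞 K)) : FI K) * M},
      q (ρ + δ + x + δ) * (starRingEnd ℂ) (q (ρ + δ + x - δ)) * pF G y ω (ρ + δ + x) =
    ∑' x : {x : K // x ∈ M}, Pool.Agent.H23.DM.cm l r M ρ δ q x * pF G y ω x := by
  have hsub : ∀ x ∈ ((l * r : Ideal (𝓞 K)) : FI K) * M, x ∈ M := by
    intro x hx
    have h1 : ((l * r : Ideal (𝓞 K)) : FI K) * M ≤ 1 * M :=
      mul_le_mul' FractionalIdeal.coeIdeal_le_one le_rfl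
    have h2 := h1 hx
    rwa [one_mul] at h2
  let i : {x : K // x ∈ ((l * r : Ideal (𝓞 K)) : FI K) * M} → {x : K // x ∈ M} := fun x =>
    ⟨ρ + δ + x.1, M.coeToSubmodule.add_mem (M.coeToSubmodule.add_mem hρ hδ) (hsub x.1 x.2)⟩
  have hi : Function.Injective i := by
    intro a b hab
    have h1 : ρ + δ + a.1 = ρ + δ + b.1 := congrArg Subtype.val hab
    exact Subtype.ext (add_left_cancel h1)
  have h := hi.tsum_eq (f := fun x : {x : K // x ∈ M} =>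
    Pool.Agent.H23.DM.cm l r M ρ δ q x * pF G y ω x) ?_
  · rw [← h]
    refine tsum_congr fun x => ?_
    have h1 : Pool.Agent.H23.DM.cm l r M ρ δ q (i x).1 =
        q (ρ + δ + x + δ) * (starRingEnd ℂ) (q (ρ + δ + x - δ)) := by
      unfold Pool.Agent.H23.DM.cm ci
      have h2 : (i x).1 - (ρ + δ) ∈ ((l * r : Ideal (𝓞 K)) : FI K) * M := by
        have h3 : (i x).1 - (ρ + δ) = x.1 := by
          simp only [i]
          ring
        rw [h3]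
        exact x.2
      rw [if_pos h2, one_mul]
    rw [h1]
  · intro x hx
    by_contra hn
    refine hx ?_
    have h2 : ¬ (x.1 - (ρ + δ) ∈ ((l * r : Ideal (𝓞 K)) : FI K) * M) := by
      intro h3
      refine hn ⟨⟨x.1 - (ρ + δ), h3⟩, ?_⟩
      apply Subtype.ext
      simp only [i]
      ring
    unfold Pool.Agent.H23.DM.cm ci
    simp only [if_neg h2, zero_mul]

end

open scoped Classical in
theorem pf_PA (hPO : Pool.Agent.H31.SX.X_PO) (hRX : T_RX) (hLA : M_LA) (hLS : M_LS)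
    (hE1 : M_E1) (hWS : W_WS) (hLN : Pool.Agent.H23.DM.D_LN) (hDV : Pool.Agent.H23.DM.D_DV) :
    Pool.Agent.H23.DM.D_PA := by
  intro n q Ψ N hn hq hΨ hN
  obtain ⟨C₁, hC₁, hLA'⟩ := hLA q Ψ hq hΨ N
  refine ⟨C₁, hC₁.le, ?_⟩
  intro K _ _ hfin l k e k' M y ω ρ G α A ι I qq E hl hl2 hk hM hω hρ hGα hFT hE hA
  have hLAv : ∀ v : InfinitePlace K, ∃ F F₁ Q : ℂ → ℂ → ℂ,
      Sep (rv v) (α v) (G v) (q (rv v)) (Ψ (rv v)) F F₁ Q ∧ ∀ s, Am N C₁ (rv v) (Q s) :=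
    fun v => hLA' (rv v) (α v) (G v) (hGα v).2.1 (hGα v).2.2.1 (hGα v).1 (hGα v).2.2.2
  choose F F₁ Q hSep hAm using hLAv
  have hr : k.radical ≠ ⊥ := fun h => hk (le_bot_iff.1 (h ▸ Ideal.le_radical))
  have hkk : e * k' ≠ ⊥ := hFT.ke ▸ hk
  have he : e ≠ ⊥ := fun h => hkk (by rw [h, Ideal.bot_mul])
  have hk' : k' ≠ ⊥ := fun h => hkk (by rw [h, Ideal.mul_bot])
  obtain ⟨_, _, _, _, hN1, _, hDDj, hNz⟩ := hLN K e k.radical k' he hr hk'
  have hrk : k.radical ⊓ k' ≠ ⊥ := fun h => by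
    have h1 : k.radical * k' ≤ ⊥ := h ▸ Ideal.mul_le_inf
    rcases Ideal.mul_eq_bot.1 (le_bot_iff.1 h1) with h2 | h2
    · exact hr h2
    · exact hk' h2
  set j : Ideal (𝓞 K) := l * (k.radical ⊓ k') with hj
  have hj0 : j ≠ ⊥ := by
    intro h
    rcases Ideal.mul_eq_bot.1 h with h2 | h2
    · exact hl h2
    · exact hrk h2
  have hjM : (j : FI K) * M ≠ 0 := (hDDj j M y hj0 hM).1
  obtain ⟨X, hX, _⟩ := hRX K j M hj0 hM
  have hAf : A.Finite := by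
    obtain ⟨CD, _, hDV'⟩ := hDV n hn 1 one_pos
    exact (hDV' K hfin l k e k' M y ω α A hl hk hM hω (fun v => (hGα v).2.1) hFT.ke
      (fun δ hδ => ⟨(hFT.mem δ hδ).2, hA δ hδ⟩)).1
  set D : Finset K := hAf.toFinset with hD
  have hDm : ∀ δ, δ ∈ D ↔ δ ∈ A := fun δ => hAf.mem_toFinset
  have hD0 : ∀ δ ∈ D, δ ≠ 0 := fun δ hδ => (hFT.mem δ ((hDm δ).1 hδ)).1
  have hφ : ∀ δ : K, ∃ φ : K → ℂ, (∀ ξ, ‖φ ξ‖ ≤ 1) ∧ (δ ∈ A → ∀ i ∈ I, ∀ X : Finset K,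
      Rep K (l * (k.radical ⊓ k')) M X →
      ∀ ξ ∈ du K (((l * (k.radical ⊓ k') : Ideal (𝓞 K)) : FI K) * M),
      ft K X (Pool.Agent.H23.DM.cm l k.radical M ρ δ (qq i)) ξ =
        ((Real.sqrt (Nf K k') : ℝ) : ℂ) * φ ξ * E i (δ * ξ)) := by
    intro δ
    by_cases h : δ ∈ A
    · obtain ⟨φ, h1, h2⟩ := hFT.ft δ h
      exact ⟨φ, h1, fun _ => h2⟩
    · exact ⟨fun _ => 0, fun _ => by simp, fun h' => absurd h' h⟩
  choose φ hφ1 hφ2 using hφ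
  have hDN : ∀ δ ∈ D, ∀ ξ ∈ du K ((j : FI K) * M), δ * ξ ∈ Pool.Agent.H23.DM.Nz K k.radical k' e :=
    fun δ hδ ξ hξ => hNz l M δ ξ hl hM (hFT.mem δ ((hDm δ).1 hδ)).2 hξ
  refine ⟨fun s v => Q v (s v), fun s ν => ∑ δ ∈ D, if ν / δ ∈ du K ((j : FI K) * M) then
    φ δ (ν / δ) * ∏ v, kp (rv v) (s v) (wv v δ y ω / α v) else 0,
    fun s v => hAm v (s v), ?_, ?_⟩
  · intro s ν
    refine (norm_sum_le _ _).trans ?_
    have h1 : ∀ δ ∈ D, ‖(if ν / δ ∈ du K ((j : FI K) * M) then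
        φ δ (ν / δ) * ∏ v, kp (rv v) (s v) (wv v δ y ω / α v) else 0 : ℂ)‖ ≤
        if ν / δ ∈ du K ((j : FI K) * M) then (1 : ℝ) else 0 := by
      intro δ _
      split_ifs
      · rw [norm_mul, norm_prod]
        exact mul_le_one₀ (hφ1 δ _) (Finset.prod_nonneg fun v _ => norm_nonneg _)
          (Finset.prod_le_one (fun v _ => norm_nonneg _) fun v _ => norm_kp _ _ _)
      · rw [norm_zero]
    refine (Finset.sum_le_sum h1).trans ?_
    rw [Finset.sum_boole]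
    unfold Pool.Agent.H23.DM.de
    have h2 : {δ | δ ∈ A ∧ ν / δ ∈ du K ((j : FI K) * M)} =
        ((D.filter fun δ => ν / δ ∈ du K ((j : FI K) * M) : Finset K) : Set K) := by
      ext δ
      simp only [Finset.coe_filter, Set.mem_ofPred_eq, hDm]
    rw [h2, Set.ncard_coe_finset]
  · intro i hi c hc
    obtain ⟨CE, hCE0, hCE⟩ := hE1 N
    have hB0 : 0 ≤ CE * C₁ := mul_nonneg hCE0 hC₁.le
    have hB : ∀ v s m, Rl (rv v) m → ‖El (rv v) (α v) (c v) (Q v s) m‖ ≤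
        (CE * C₁) * (1 + ‖m‖ / max 1 (α v * ‖c v‖)) ^ (-(N : ℝ)) := fun v s m hm =>
      (hCE (rv v) (α v) (c v) m (Q v s) C₁ (hGα v).2.1 (hGα v).2.2.1 (hc v) hm hC₁.le
        (hAm v s)).1
    have haE : ∀ δ ∈ D, ∀ ξ ∈ du K ((j : FI K) * M),
        ‖φ δ ξ * E i (δ * ξ)‖ ≤ Real.sqrt (Nf K k.radical) := by
      intro δ hδ ξ hξ
      rw [norm_mul]
      have h1 : ‖E i (δ * ξ)‖ ≤ Real.sqrt (Nf K k.radical) :=
        Real.le_sqrt_of_sq_le (hE i hi _ (hDN δ hδ ξ hξ))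
      calc ‖φ δ ξ‖ * ‖E i (δ * ξ)‖ ≤ 1 * Real.sqrt (Nf K k.radical) :=
            mul_le_mul (hφ1 δ ξ) h1 (norm_nonneg _) zero_le_one
        _ = _ := one_mul _
    have hper : ∀ δ ∈ D, _ := fun δ hδ => per_delta hPO hLS hWS hn hfin hq hΨ hN hj0 hM hjM hX
      (cc := Pool.Agent.H23.DM.cm l k.radical M ρ δ (qq i))
      (hFT.per δ ((hDm δ).1 hδ) i hi) (S := Real.sqrt (Nf K k'))
      (a := fun ξ => φ δ ξ * E i (δ * ξ)) (haE δ hδ)
      (fun ξ hξ => by rw [hφ2 δ ((hDm δ).1 hδ) i hi X hX ξ hξ, mul_assoc])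
      y hω δ hGα hSep hAm hc hB0 hB (hA δ ((hDm δ).1 hδ))
    have hreg : ∀ s : InfinitePlace K → ℂ, _ := fun s => regroup (du K ((j : FI K) * M))
      (Pool.Agent.H23.DM.Nz K k.radical k' e) D φ (E i)
      (fun δ v => wv v δ y ω / α v) α Q c s hD0 hDN (fun δ hδ => (hper δ hδ).1 s)
    constructor
    · have h1 : (fun s : InfinitePlace K → ℂ =>
          ∑' ν : {ν : K // ν ∈ Pool.Agent.H23.DM.Nz K k.radical k' e},
          (∑ δ ∈ D, if (ν : K) / δ ∈ du K ((j : FI K) * M) then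
          φ δ ((ν : K) / δ) * ∏ v, kp (rv v) (s v) (wv v δ y ω / α v) else 0) *
          (E i ν * Ep α (fun v => Q v (s v)) c ν)) = fun s => ∑ δ ∈ D,
          ∑' ξ : {ξ : K // ξ ∈ du K ((j : FI K) * M)},
            T2 (fun ξ => φ δ ξ * E i (δ * ξ)) δ (fun v => wv v δ y ω / α v) α Q c ξ s :=
        funext hreg
      rw [h1]
      exact integrable_finsetSum D fun δ hδ => (hper δ hδ).2.1
    · have h1 : ∀ s : InfinitePlace K → ℂ,
          ∑' ν : {ν : K // ν ∈ Pool.Agent.H23.DM.Nz K k.radical k' e},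
          (∑ δ ∈ D, if (ν : K) / δ ∈ du K ((j : FI K) * M) then
          φ δ ((ν : K) / δ) * ∏ v, kp (rv v) (s v) (wv v δ y ω / α v) else 0) *
          (E i ν * Ep α (fun v => Q v (s v)) c ν) = ∑ δ ∈ D,
          ∑' ξ : {ξ : K // ξ ∈ du K ((j : FI K) * M)},
            T2 (fun ξ => φ δ ξ * E i (δ * ξ)) δ (fun v => wv v δ y ω / α v) α Q c ξ s := hreg
      simp_rw [h1]
      rw [integral_finsetSum D fun δ hδ => (hper δ hδ).2.1, Finset.mul_sum]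
      unfold Pool.Agent.H23.DM.OQ
      rw [finsum_mem_eq_finite_toFinset_sum _ hAf]
      refine Finset.sum_congr rfl fun δ hδ => ?_
      have hNj : Nf K l * Nf K (k.radical ⊓ k') = Nf K j := by
        rw [hj]
        unfold Nf
        rw [map_mul]
        push_cast
        ring
      rw [hNj, ← (hper δ hδ).2.2]
      have hδM : δ ∈ M := mem_of_two hl2 (hFT.mem δ ((hDm δ).1 hδ)).2
      exact coset_sum hρ hδM (qq i) _ y ω

end Pool.Agent.H49.DM.PA
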