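import Pool.Agent.H71.DM.Targets
import Pool.Agent.H71.DM.Basic

set_option autoImplicit false

namespace Pool.Agent.H49.DM

open Finset Pool.Agent.H71.DM

theorem mar : MarginalStmt := by
  intro I X _ _ _ q hq c f
  classical
  have key : ∀ x : I → X, prodW q x * f (x c)
      = ∏ i, (fun (i : I) (v : X) => q i v * (if i = c then f v else 1)) i (x i) := by
    intro x
    unfold prodW
    rw [Finset.prod_mul_distrib]
    congr 1
    rw [Finset.prod_ite_eq' univ c (fun i => f (x i))]
    simp
  unfold ex
  rw [Finset.sum_congr rfl fun x _ => key x]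
  have h := Finset.prod_univ_sum (fun _ : I => (univ : Finset X))
    (fun (i : I) (v : X) => q i v * (if i = c then f v else 1))
  rw [Fintype.piFinset_univ] at h
  rw [← h]
  rw [Finset.prod_eq_single c]
  · exact Finset.sum_congr rfl fun v _ => by simp
  · intro i _ hi
    simp only [hi, if_false, mul_one]
    exact (hq i).2
  · intro hc
    exact absurd (Finset.mem_univ c) hc

theorem prodprob : ProdProbStmt := by
  intro I X _ _ _ q hq
  exact prodW_prob hq

end Pool.Agent.H49.DM
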