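import Pool.Agent.H71.DM.Targets
import Pool.Agent.H71.DM.Basic

set_option autoImplicit false

namespace Pool.Agent.H49.DM

open Finset Pool.Agent.H71.DM

/-- functions on `Option J` -/
def optEquiv (J X : Type) : (Option J → X) ≃ X × (J → X) where
  toFun w := (w none, fun j => w (some j))
  invFun p := fun o => o.elim p.1 p.2
  left_inv w := by
    funext o
    cases o <;> rfl
  right_inv p := by
    rcases p with ⟨z, x⟩
    rfl

theorem opt : OptionStmt := by
  intro J X _ _ _ q' _ f
  unfold ex
  rw [Fintype.sum_equiv (optEquiv J X) (fun w => prodW q' w * f w)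
    (fun p => (q' none p.1 * prodW (fun i => q' (some i)) p.2) * f (fun o => o.elim p.1 p.2))]
  · rw [Fintype.sum_prod_type_right]
    refine Finset.sum_congr rfl fun x _ => ?_
    rw [Finset.mul_sum]
    exact Finset.sum_congr rfl fun z _ => by ring
  · intro w
    have h1 : (fun o => Option.elim o ((optEquiv J X) w).1 ((optEquiv J X) w).2) = w :=
      (optEquiv J X).left_inv w
    rw [h1]
    congr 1
    unfold prodW
    rw [Fintype.prod_option]
    rfl

end Pool.Agent.H49.DM
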