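import Pool.Agent.H71.DM.Targets
import Pool.Agent.H71.DM.Basic

set_option autoImplicit false

namespace Pool.Agent.H49.DM

open Finset Pool.Agent.H71.DM

/-- functions on `Fin (p+1)` -/
def snocEq (X : Type) (p : ℕ) : (Fin (p + 1) → X) ≃ X × (Fin p → X) where
  toFun w := (w (Fin.last p), fun j => w (Fin.castSucc j))
  invFun s := (Fin.snoc s.2 s.1 : Fin (p + 1) → X)
  left_inv w := by
    funext o
    refine Fin.lastCases ?_ (fun i => ?_) o <;> simp
  right_inv s := by
    rcases s with ⟨z, x⟩
    simp

theorem sno : SnocStmt := by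
  intro X _ p q _ f
  unfold ex
  rw [Fintype.sum_equiv (snocEq X p) (fun w => prodW q w * f w)
    (fun s => (q (Fin.last p) s.1 * prodW (fun i => q (Fin.castSucc i)) s.2) *
      f (Fin.snoc s.2 s.1 : Fin (p + 1) → X))]
  · rw [Fintype.sum_prod_type]
    refine Finset.sum_congr rfl fun x _ => ?_
    rw [Finset.mul_sum]
    exact Finset.sum_congr rfl fun z _ => by ring
  · intro w
    have h1 : (Fin.snoc ((snocEq X p) w).2 ((snocEq X p) w).1 : Fin (p + 1) → X) = w :=
      (snocEq X p).left_inv w
    rw [h1]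
    congr 1
    unfold prodW
    rw [Fin.prod_univ_castSucc]
    rw [mul_comm]
    rfl

end Pool.Agent.H49.DM
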